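import Mathlib

/-!
# The (8,3)-property for graphs with 4-torsion symmetry

Let `G` be a finite graph in which every 8 vertices contain an independent set of size 3, let a finite group `H` act by automorphisms of `G`,
and let `v` be a vertex such that the orbit `H v`, if it contains a triangle, contains a triangle `v, s v, c v` with `s v ~ c s v`, `c⁴ v = v` and `c⁴ s v = s v`
(for example `H` abelian with `h⁴ = 1` for all `h`). If the orbit has at least 17 points, then it spans a triangle-free graph, hence `|H v| ≤ α (α + 1)`: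
a triangle `v, s v, c v` gives the closed walk `v, s v, c v, c s v, c² v, c² s v, c³ v, c³ s v` of length 8, in which points at distance 1 and 2 are adjacent.
-/

set_option autoImplicit false

namespace Pool.Agent.Results.MP_3ca12c_co.FourTorsionOrbits

open SimpleGraph

/-- the (8,3)-property: every 8 vertices contain an independent set of size 3 -/
def EightThree {V : Type} (G : SimpleGraph V) : Prop :=
  ∀ s : Finset V, s.card = 8 → ∃ t : Finset V, t ⊆ s ∧ t.card = 3 ∧ G.IsIndepSet (t : Set V)

/-- `v`, `s v`, `c v` is a triangle of `G` -/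
def Tri {V H : Type} (G : SimpleGraph V) [Group H] [MulAction H V] (v : V) (s c : H) : Prop :=
  G.Adj v (s • v) ∧ G.Adj v (c • v) ∧ G.Adj (s • v) (c • v)

/-- if the orbit of `v` contains a triangle, then it contains a triangle `v, s v, c v` with `s v ~ c s v`, `c⁴ v = v`, `c⁴ s v = s v` -/
def Tame {V H : Type} (G : SimpleGraph V) [Group H] [MulAction H V] (v : V) : Prop :=
  (∃ s c : H, Tri G v s c) →
    ∃ s c : H, Tri G v s c ∧ G.Adj (s • v) (c • s • v) ∧ c ^ 4 • v = v ∧ c ^ 4 • s • v = s • v

section core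

variable {V H : Type} [Fintype V] [DecidableEq V] (G : SimpleGraph V) [Group H] [Finite H] [MulAction H V]

omit [Fintype V] in
/-- two disjoint 4-cliques are impossible -/
lemma no_two (hG : EightThree G) (A B : Finset V) (hA : A.card = 4) (hB : B.card = 4) (hd : Disjoint A B)
    (cA : ∀ x ∈ A, ∀ y ∈ A, x ≠ y → G.Adj x y) (cB : ∀ x ∈ B, ∀ y ∈ B, x ≠ y → G.Adj x y) : False := by
  obtain ⟨t, ht, h3, hi⟩ := hG (A ∪ B) (by rw [Finset.card_union_of_disjoint hd, hA, hB])
  have hc : t.card ≤ (t ∩ A).card + (t ∩ B).card := by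
    have : t = (t ∩ A) ∪ (t ∩ B) := by
      rw [← Finset.inter_union_distrib_left]
      exact (Finset.inter_eq_left.2 ht).symm
    calc t.card = ((t ∩ A) ∪ (t ∩ B)).card := by rw [← this]
      _ ≤ _ := Finset.card_union_le _ _
  have key : ∀ C : Finset V, (∀ x ∈ C, ∀ y ∈ C, x ≠ y → G.Adj x y) → (t ∩ C).card ≤ 1 := by
    intro C cC
    by_contra hcon
    push Not at hcon
    obtain ⟨x, hx, y, hy, hxy⟩ := Finset.one_lt_card.1 hcon
    rw [Finset.mem_inter] at hx hy
    exact hi (by exact_mod_cast hx.1) (by exact_mod_cast hy.1) hxy (cC x hx.2 y hy.2 hxy)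
  have h1 := key A cA
  have h2 := key B cB
  omega

variable {G}

omit [DecidableEq V] in
/-- a large orbit: some translate avoids 16 given coincidences -/
lemma exists_avoid (v : V) (hO : 17 ≤ (MulAction.orbit H v).ncard) (g : Fin 4 → H) :
    ∃ h : H, ∀ i j, (h * g i) • v ≠ g j • v := by
  classical
  let _ : Fintype H := Fintype.ofFinite H
  let _ : Fintype (MulAction.orbit H v) := Fintype.ofFinite _
  by_contra hcon
  push Not at hcon
  let F : Fin 4 × Fin 4 → Finset H := fun p => Finset.univ.filter (fun h => (h * g p.1) • v = g p.2 • v)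
  have hF : ∀ p, (F p).card ≤ Fintype.card (MulAction.stabilizer H v) := by
    intro p
    rw [← Finset.card_univ]
    refine Finset.card_le_card_of_surjOn (fun k : MulAction.stabilizer H v => g p.2 * k * (g p.1)⁻¹) ?_
    intro h hh
    have hh' : (h * g p.1) • v = g p.2 • v := by simpa [F] using hh
    refine ⟨⟨(g p.2)⁻¹ * (h * g p.1), ?_⟩, by simp, ?_⟩
    · rw [MulAction.mem_stabilizer_iff, mul_smul, hh', inv_smul_smul]
    · simp [mul_assoc]
  have hu : (Finset.univ : Finset H) ⊆ (Finset.univ : Finset (Fin 4 × Fin 4)).biUnion F := by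
    intro h _
    obtain ⟨i, j, hij⟩ := hcon h
    exact Finset.mem_biUnion.2 ⟨(i, j), Finset.mem_univ _, by simpa [F] using hij⟩
  have h1 : Fintype.card H ≤ 16 * Fintype.card (MulAction.stabilizer H v) := by
    calc Fintype.card H = (Finset.univ : Finset H).card := Finset.card_univ.symm
      _ ≤ ((Finset.univ : Finset (Fin 4 × Fin 4)).biUnion F).card := Finset.card_le_card hu
      _ ≤ (Finset.univ : Finset (Fin 4 × Fin 4)).card * Fintype.card (MulAction.stabilizer H v) :=
          Finset.card_biUnion_le_card_mul _ _ _ (fun p _ => hF p)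
      _ = _ := by simp
  have h2 := MulAction.card_orbit_mul_card_stabilizer_eq_card_group H v
  have h3 : Fintype.card (MulAction.orbit H v) = (MulAction.orbit H v).ncard := by
    rw [← Nat.card_eq_fintype_card]; exact Nat.card_coe_set_eq _
  have h4 : 0 < Fintype.card (MulAction.stabilizer H v) := Fintype.card_pos
  rw [h3] at h2
  nlinarith

/-- no 4-clique inside a large orbit -/
lemma no_K4 (hG : EightThree G) (hact : ∀ (h : H) (x y : V), G.Adj x y → G.Adj (h • x) (h • y)) (v : V)
    (hO : 17 ≤ (MulAction.orbit H v).ncard) (g : Fin 4 → H) (hg : ∀ i j, i ≠ j → G.Adj (g i • v) (g j • v)) : False := by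
  classical
  have hinj : Function.Injective (fun i => g i • v) := by
    intro i j hij
    by_contra hne
    exact (hg i j hne).ne hij
  obtain ⟨h, hh⟩ := exists_avoid v hO g
  let A : Finset V := Finset.univ.image (fun i => g i • v)
  let B : Finset V := Finset.univ.image (fun i => (h * g i) • v)
  have hA : A.card = 4 := by
    rw [Finset.card_image_of_injective _ hinj]; simp
  have hinjB : Function.Injective (fun i => (h * g i) • v) := by
    intro i j hij
    apply hinj
    simp only [mul_smul] at hij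
    exact MulAction.injective h hij
  have hB : B.card = 4 := by
    rw [Finset.card_image_of_injective _ hinjB]; simp
  have hd : Disjoint A B := by
    rw [Finset.disjoint_left]
    intro x hx hx'
    obtain ⟨j, -, rfl⟩ := Finset.mem_image.1 hx
    obtain ⟨i, -, hi⟩ := Finset.mem_image.1 hx'
    exact hh i j hi
  refine no_two G hG A B hA hB hd ?_ ?_
  · intro x hx y hy hxy
    obtain ⟨i, -, rfl⟩ := Finset.mem_image.1 hx
    obtain ⟨j, -, rfl⟩ := Finset.mem_image.1 hy
    exact hg i j (fun h => hxy (by rw [h]))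
  · intro x hx y hy hxy
    obtain ⟨i, -, rfl⟩ := Finset.mem_image.1 hx
    obtain ⟨j, -, rfl⟩ := Finset.mem_image.1 hy
    have := hact h _ _ (hg i j (fun h => hxy (by rw [h])))
    simpa only [mul_smul] using this

omit [Fintype V] in
/-- the square of the 8-cycle is impossible -/
lemma no_C8 (hG : EightThree G) (x : ℕ → V) (hp : ∀ n, x (n + 8) = x n) (h1 : ∀ n, G.Adj (x n) (x (n + 1)))
    (h2 : ∀ n, G.Adj (x n) (x (n + 2))) (h3 : ∀ n, x n ≠ x (n + 3)) (h4 : ∀ n, x n ≠ x (n + 4)) : False := by
  have hlt : ∀ n m, n < m → m < 8 → x n ≠ x m := by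
    intro n m hnm hm he
    obtain ⟨d, rfl⟩ := Nat.exists_eq_add_of_lt hnm
    have hd : d < 7 := by omega
    interval_cases d
    · exact (h1 n).ne he
    · exact (h2 n).ne he
    · exact h3 n he
    · exact h4 n he
    · apply h3 (n + 4 + 1)
      rw [show n + 4 + 1 + 3 = n + 8 from rfl, hp, he]
    · apply (h2 (n + 5 + 1)).ne
      rw [show n + 5 + 1 + 2 = n + 8 from rfl, hp, he]
    · apply (h1 (n + 6 + 1)).ne
      rw [show n + 6 + 1 + 1 = n + 8 from rfl, hp, he]
  have hinj : Set.InjOn x (Finset.range 8 : Set ℕ) := by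
    intro n hn m hm he
    simp only [Finset.coe_range, Set.mem_Iio] at hn hm
    rcases lt_trichotomy n m with h | h | h
    · exact absurd he (hlt n m h hm)
    · exact h
    · exact absurd he.symm (hlt m n h hn)
  obtain ⟨t, ht, h3', hi⟩ := hG ((Finset.range 8).image x) (by rw [Finset.card_image_of_injOn hinj]; simp)
  obtain ⟨T, hT, rfl⟩ := Finset.subset_image_iff.1 ht
  have hTr : ∀ n ∈ T, n < 8 := fun n hn => by simpa using hT hn
  have hTc : T.card = 3 := by
    rw [← h3', Finset.card_image_of_injOn]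
    exact hinj.mono hT
  -- three indices
  obtain ⟨a, b, c, hab, hbc, hTe⟩ : ∃ a b c, a < b ∧ b < c ∧ T = {a, b, c} := by
    obtain ⟨a, b, c, hab, hac, hbc, hTe⟩ := Finset.card_eq_three.1 hTc
    subst hTe
    rcases lt_or_gt_of_ne hab with h | h <;> rcases lt_or_gt_of_ne hac with h' | h' <;> rcases lt_or_gt_of_ne hbc with h'' | h''
    · exact ⟨a, b, c, h, h'', rfl⟩
    · exact ⟨a, c, b, h', h'', by ext; simp; tauto⟩
    · omega
    · exact ⟨c, a, b, h', h, by ext; simp; tauto⟩
    · exact ⟨b, a, c, h, h', by ext; simp; tauto⟩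
    · omega
    · exact ⟨b, c, a, h'', h', by ext; simp; tauto⟩
    · exact ⟨c, b, a, h'', h, by ext; simp; tauto⟩
  have ha : a ∈ T := by rw [hTe]; simp
  have hb : b ∈ T := by rw [hTe]; simp
  have hc : c ∈ T := by rw [hTe]; simp
  have h8 := hTr c hc
  have hind : ∀ n ∈ T, ∀ m ∈ T, x n ≠ x m → ¬ G.Adj (x n) (x m) := fun n hn m hm hne =>
    hi (by simpa using ⟨n, hn, rfl⟩) (by simpa using ⟨m, hm, rfl⟩) hne
  have hadj : ∀ n m, m = n + 1 ∨ m = n + 2 → G.Adj (x n) (x m) := by
    rintro n m (rfl | rfl)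
    · exact h1 n
    · exact h2 n
  have hcase : (b = a + 1 ∨ b = a + 2) ∨ (c = b + 1 ∨ c = b + 2) ∨ (a + 8 = c + 1 ∨ a + 8 = c + 2) := by omega
  rcases hcase with h | h | h
  · exact hind a ha b hb (hadj a b h).ne (hadj a b h)
  · exact hind b hb c hc (hadj b c h).ne (hadj b c h)
  · have := hadj c (a + 8) h
    rw [hp] at this
    exact hind c hc a ha this.ne this

/-- a large orbit contains no tame triangle -/
lemma no_tame (hG : EightThree G) (hact : ∀ (h : H) (x y : V), G.Adj x y → G.Adj (h • x) (h • y)) (v : V)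
    (hO : 17 ≤ (MulAction.orbit H v).ncard) (s c : H) (hs : G.Adj v (s • v)) (hc : G.Adj v (c • v)) (hsc : G.Adj (s • v) (c • v))
    (hcs : G.Adj (s • v) (c • s • v)) (c4 : c ^ 4 • v = v) (c4s : c ^ 4 • s • v = s • v) : False := by
  -- translates of the four adjacencies
  have A1 : ∀ g : H, G.Adj (g • v) ((g * s) • v) := fun g => by rw [mul_smul]; exact hact g _ _ hs
  have A2 : ∀ g : H, G.Adj (g • v) ((g * c) • v) := fun g => by rw [mul_smul]; exact hact g _ _ hc
  have A3 : ∀ g : H, G.Adj ((g * s) • v) ((g * c) • v) := fun g => by rw [mul_smul, mul_smul]; exact hact g _ _ hsc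
  have A4 : G.Adj (s • v) ((c * s) • v) := by rw [mul_smul]; exact hcs
  -- the clique 1, c, c², c³
  have cyc : G.Adj v ((c ^ 2) • v) → False := by
    intro h
    have B : ∀ g : H, G.Adj (g • v) ((g * c ^ 2) • v) := fun g => by rw [mul_smul]; exact hact g _ _ h
    refine no_K4 hG hact v hO ![1, c, c ^ 2, c ^ 3] ?_
    have e1 := A2 1
    have e2 := A2 c
    have e3 := A2 (c ^ 2)
    have e4 := A2 (c ^ 3)
    have f1 := B 1
    have f2 := B c
    rw [one_mul] at e1 f1
    rw [← pow_two] at e2
    rw [← pow_succ] at e3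
    rw [← pow_succ, c4] at e4
    rw [← pow_succ'] at f2
    have e4' : G.Adj ((c ^ 3) • v) ((1 : H) • v) := by rw [one_smul]; exact e4
    intro i j hij
    fin_cases i <;> fin_cases j <;> first | exact absurd rfl hij | skip
    all_goals simp only [Matrix.cons_val_zero, Matrix.cons_val_one, Matrix.cons_val, Fin.isValue, Fin.zero_eta, Fin.mk_one, Fin.reduceFinMk]
    · exact e1
    · exact f1
    · exact e4'.symm
    · exact e1.symm
    · exact e2
    · exact f2
    · exact f1.symm
    · exact e2.symm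
    · exact e3
    · exact e4'
    · exact f2.symm
    · exact e3.symm
  -- degenerate cases
  have E2 : v ≠ (c ^ 2) • v := by
    intro he
    have k1 := A3 c
    rw [← pow_two, ← he] at k1
    refine no_K4 hG hact v hO ![1, s, c, c * s] ?_
    have e1 := A1 1
    have e2 := A2 1
    have e3 := A3 1
    have e5 := A1 c
    rw [one_mul] at e1 e2
    rw [one_mul, one_mul] at e3
    have k2 : G.Adj ((c * s) • v) ((1 : H) • v) := by rw [one_smul]; exact k1
    intro i j hij
    fin_cases i <;> fin_cases j <;> first | exact absurd rfl hij | skip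
    all_goals simp only [Matrix.cons_val_zero, Matrix.cons_val_one, Matrix.cons_val, Fin.isValue, Fin.zero_eta, Fin.mk_one, Fin.reduceFinMk]
    · exact e1
    · exact e2
    · exact k2.symm
    · exact e1.symm
    · exact e3
    · exact A4
    · exact e2.symm
    · exact e3.symm
    · exact e5
    · exact k2
    · exact A4.symm
    · exact e5.symm
  have E2' : s • v ≠ (c ^ 2) • (s • v) := by
    intro he
    -- the clique s v, c s v, c v, c² v
    refine no_K4 hG hact v hO ![s, c * s, c, c ^ 2] ?_
    have e1 := A3 1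
    rw [one_mul, one_mul] at e1
    have e2 := A1 c
    have e3 := A2 c
    have e4 := A3 c
    rw [← pow_two] at e3 e4
    have e5 := A1 (c ^ 2)
    rw [mul_smul, ← he] at e5
    intro i j hij
    fin_cases i <;> fin_cases j <;> first | exact absurd rfl hij | skip
    all_goals simp only [Matrix.cons_val_zero, Matrix.cons_val_one, Matrix.cons_val, Fin.isValue, Fin.zero_eta, Fin.mk_one, Fin.reduceFinMk]
    · exact A4
    · exact e1
    · exact e5.symm
    · exact A4.symm
    · exact e2.symm
    · exact e4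
    · exact e1.symm
    · exact e2
    · exact e3
    · exact e5
    · exact e4.symm
    · exact e3.symm
  have E3 : v ≠ (c * s) • v := by
    intro he
    apply cyc
    -- c • (s • v) = v, so s • v ~ c • v gives v ~ c² v
    have := hact c _ _ hsc
    rw [← mul_smul, ← he, ← mul_smul, ← pow_two] at this
    exact this
  have E4 : s • v ≠ (c ^ 2) • v := fun he => cyc (he ▸ hs)
  -- the walk
  let x : ℕ → V := fun n => (c ^ (n / 2) * s ^ (n % 2)) • v
  have x0 : x 0 = v := by simp [x]
  have x1 : x 1 = s • v := by simp [x]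
  have xs : ∀ n, x (n + 2) = c • x n := by
    intro n
    show (c ^ ((n + 2) / 2) * s ^ ((n + 2) % 2)) • v = c • (c ^ (n / 2) * s ^ (n % 2)) • v
    rw [Nat.add_div_right _ (by norm_num), Nat.add_mod_right, ← mul_smul]
    congr 1
    rw [pow_succ', mul_assoc]
  have x2 : x 2 = c • v := by rw [xs 0, x0]
  have x3 : x 3 = c • (s • v) := by rw [xs 1, x1]
  have x4 : x 4 = (c ^ 2) • v := by rw [xs 2, x2, ← mul_smul, ← pow_two]
  have x5 : x 5 = (c ^ 2) • (s • v) := by rw [xs 3, x3, ← mul_smul, ← pow_two]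
  have step : ∀ P : ℕ → Prop, P 0 → P 1 → (∀ n, P n → P (n + 2)) → ∀ n, P n := by
    intro P h0 h1 hs n
    induction n using Nat.strong_induction_on with
    | _ n ih =>
      rcases n with _ | _ | n
      · exact h0
      · exact h1
      · exact hs n (ih n (by omega))
  have h8 : ∀ n, x (n + 8) = (c ^ 4) • x n := by
    intro n
    rw [show n + 8 = n + 6 + 2 from rfl, xs, show n + 6 = n + 4 + 2 from rfl, xs, show n + 4 = n + 2 + 2 from rfl, xs, xs]
    rw [show c ^ 4 = c * (c * (c * c)) by rw [pow_succ', pow_succ', pow_succ', pow_one], mul_smul, mul_smul, mul_smul]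
  have hp : ∀ n, x (n + 8) = x n := by
    refine step _ ?_ ?_ ?_
    · rw [h8, x0, c4]
    · rw [h8, x1, c4s]
    · intro n hn
      rw [show n + 2 + 8 = n + 8 + 2 from rfl, xs (n + 8), xs n, hn]
  refine no_C8 hG x hp ?_ ?_ ?_ ?_
  · refine step _ ?_ ?_ ?_
    · rw [x0, x1]; exact hs
    · rw [x1, x2]; exact hsc
    · intro n hn
      rw [show n + 2 + 1 = n + 1 + 2 from rfl, xs, xs]
      exact hact c _ _ hn
  · refine step _ ?_ ?_ ?_
    · rw [x0, x2]; exact hc
    · rw [x1, x3]; exact hcs
    · intro n hn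
      rw [xs (n + 2), xs n]
      rw [xs n] at hn
      exact hact c _ _ hn
  · refine step _ ?_ ?_ ?_
    · rw [x0, x3, ← mul_smul]; exact E3
    · rw [x1, x4]; exact E4
    · intro n hn
      rw [show n + 2 + 3 = n + 3 + 2 from rfl, xs, xs]
      exact fun h => hn (MulAction.injective c h)
  · refine step _ ?_ ?_ ?_
    · rw [x0, x4]; exact E2
    · rw [x1, x5]; exact E2'
    · intro n hn
      rw [show n + 2 + 4 = n + 4 + 2 from rfl, xs, xs]
      exact fun h => hn (MulAction.injective c h)

/-- a large orbit spans a triangle-free graph -/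
lemma no_triangle (hG : EightThree G) (hact : ∀ (h : H) (x y : V), G.Adj x y → G.Adj (h • x) (h • y)) (v : V) (ht : Tame (H := H) G v)
    (hO : 17 ≤ (MulAction.orbit H v).ncard) (s c : H) (hs : G.Adj v (s • v)) (hc : G.Adj v (c • v)) (hsc : G.Adj (s • v) (c • v)) : False := by
  obtain ⟨s', c', ⟨h1, h2, h3⟩, h4, h5, h6⟩ := ht ⟨s, c, hs, hc, hsc⟩
  exact no_tame hG hact v hO s' c' h1 h2 h3 h4 h5 h6

/-- the bound for one orbit -/
theorem orbit_bound (hG : EightThree G) (hact : ∀ (h : H) (x y : V), G.Adj x y → G.Adj (h • x) (h • y)) (v : V) (ht : Tame (H := H) G v)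
    (hO : 17 ≤ (MulAction.orbit H v).ncard) : (MulAction.orbit H v).ncard ≤ G.indepNum * (G.indepNum + 1) := by
  classical
  let O : Finset V := Finset.univ.filter (fun y => y ∈ MulAction.orbit H v)
  have hOc : (MulAction.orbit H v).ncard = O.card := by
    rw [← Set.ncard_coe_finset]
    congr 1
    ext y
    simp [O]
  -- a largest independent subset of `O`
  obtain ⟨I, hI, hmax⟩ : ∃ I ∈ O.powerset.filter (fun J : Finset V => G.IsIndepSet (J : Set V)),
      ∀ J ∈ O.powerset.filter (fun J : Finset V => G.IsIndepSet (J : Set V)), J.card ≤ I.card := by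
    apply Finset.exists_max_image
    exact ⟨∅, by simp [SimpleGraph.IsIndepSet]⟩
  rw [Finset.mem_filter, Finset.mem_powerset] at hI
  have hIc : I.card ≤ G.indepNum := hI.2.card_le_indepNum
  have hN : ∀ w ∈ O, (O.filter (fun y => G.Adj w y)).card ≤ G.indepNum := by
    intro w hw
    apply IsIndepSet.card_le_indepNum
    intro y hy z hz hyz hadj
    simp only [Finset.coe_filter, Set.mem_ofPred_eq, O, Finset.mem_filter, Finset.mem_univ, true_and] at hy hz hw
    obtain ⟨h, rfl⟩ := hw
    obtain ⟨⟨a, rfl⟩, hya⟩ := hy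
    obtain ⟨⟨b, rfl⟩, hzb⟩ := hz
    simp only at hya hzb hadj
    refine no_triangle hG hact v ht hO (h⁻¹ * a) (h⁻¹ * b) ?_ ?_ ?_
    · have := hact h⁻¹ _ _ hya
      rwa [inv_smul_smul, ← mul_smul] at this
    · have := hact h⁻¹ _ _ hzb
      rwa [inv_smul_smul, ← mul_smul] at this
    · have := hact h⁻¹ _ _ hadj
      rwa [← mul_smul, ← mul_smul] at this
  have hcov : O ⊆ I ∪ I.biUnion (fun w => O.filter (fun y => G.Adj w y)) := by
    intro y hy
    by_cases hyI : y ∈ I
    · exact Finset.mem_union_left _ hyI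
    apply Finset.mem_union_right
    rw [Finset.mem_biUnion]
    by_contra hcon
    push Not at hcon
    have hno : ∀ w ∈ I, ¬ G.Adj w y := by
      intro w hw hadj
      exact hcon w hw (Finset.mem_filter.2 ⟨hy, hadj⟩)
    have := hmax (insert y I) (by
      rw [Finset.mem_filter, Finset.mem_powerset]
      refine ⟨Finset.insert_subset hy hI.1, ?_⟩
      rw [Finset.coe_insert]
      intro p hp q hq hpq hadj
      rcases hp with rfl | hp <;> rcases hq with rfl | hq
      · exact hpq rfl
      · exact hno q (by exact_mod_cast hq) hadj.symm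
      · exact hno p (by exact_mod_cast hp) hadj
      · exact hI.2 hp hq hpq hadj)
    rw [Finset.card_insert_of_notMem hyI] at this
    omega
  rw [hOc]
  calc O.card ≤ (I ∪ I.biUnion (fun w => O.filter (fun y => G.Adj w y))).card := Finset.card_le_card hcov
    _ ≤ I.card + (I.biUnion (fun w => O.filter (fun y => G.Adj w y))).card := Finset.card_union_le _ _
    _ ≤ I.card + I.card * G.indepNum := by
        gcongr
        exact Finset.card_biUnion_le_card_mul _ _ _ (fun w hw => hN w (hI.1 hw))
    _ ≤ G.indepNum + G.indepNum * G.indepNum := by gcongr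
    _ = G.indepNum * (G.indepNum + 1) := by ring

end core

/-- the two halves of the size estimate -/
lemma size_aux {δ : ℝ} (hδ : 0 < δ) : ∃ N : ℕ, ∀ n a : ℕ, N ≤ n → ((n : ℝ) ^ (2 / 3 + δ) ≤ (a : ℝ) * ((a : ℝ) + 1)) →
    (n : ℝ) ^ (1 / 3 + δ / 3) ≤ (a : ℝ) := by
  have h0 : Filter.Tendsto (fun n : ℕ => (n : ℝ) ^ (δ / 3)) Filter.atTop Filter.atTop :=
    (tendsto_rpow_atTop (by positivity)).comp tendsto_natCast_atTop_atTop
  obtain ⟨N, hN⟩ := Filter.eventually_atTop.1 (h0.eventually_ge_atTop 2)
  refine ⟨max N 1, fun n a hn ha => ?_⟩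
  have hn0 : (1 : ℝ) ≤ n := by exact_mod_cast (le_max_right N 1).trans hn
  have h2 := hN n ((le_max_left N 1).trans hn)
  by_contra hlt
  push Not at hlt
  have hx : (1 : ℝ) ≤ (n : ℝ) ^ (1 / 3 + δ / 3) := Real.one_le_rpow hn0 (by positivity)
  have hmul : (n : ℝ) ^ (2 / 3 + δ) = (n : ℝ) ^ (1 / 3 + δ / 3) * (n : ℝ) ^ (1 / 3 + δ / 3) * (n : ℝ) ^ (δ / 3) := by
    rw [← Real.rpow_add (by positivity), ← Real.rpow_add (by positivity)]
    congr 1
    ring
  have ha0 : (0 : ℝ) ≤ a := Nat.cast_nonneg a
  set X := (n : ℝ) ^ (1 / 3 + δ / 3)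
  set Y := (n : ℝ) ^ (δ / 3)
  rw [hmul] at ha
  have h3 : (a : ℝ) * (a + 1) < X * X * 2 := by nlinarith
  have h4 : X * X * 2 ≤ X * X * Y := by gcongr
  linarith

/-- Let `G` be a finite graph with the (8,3)-property.
(1) Let a finite group `H` act by automorphisms and let `v` be a vertex such that its orbit, if it contains a triangle, contains a triangle `v, s v, c v`
with `s v ~ c s v`, `c⁴ v = v`, `c⁴ s v = s v`. If the orbit of `v` has at least 17 points, it has at most `α (α + 1)` points.
(2) For every `δ > 0` and all large `n`: if `G` has `n` vertices and an abelian group of exponent dividing 4 acts by automorphisms with an orbit of at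
least `n ^ (2/3 + δ)` points, then `α ≥ n ^ (1/3 + δ/3)`.
(3) If `G` is a Cayley graph of a group of order at least 17, with a connection set closed under conjugation all of whose elements satisfy `s ^ 4 = 1`,
then the group has at most `α (α + 1)` elements. -/
theorem result :
    (∀ (V H : Type) [Fintype V] [Group H] [Finite H] [MulAction H V] (G : SimpleGraph V), EightThree G →
      (∀ (h : H) (x y : V), G.Adj x y → G.Adj (h • x) (h • y)) → ∀ v : V, Tame (H := H) G v →
      17 ≤ (MulAction.orbit H v).ncard → (MulAction.orbit H v).ncard ≤ G.indepNum * (G.indepNum + 1)) ∧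
    (∀ δ : ℝ, 0 < δ → ∃ N : ℕ, ∀ (V H : Type) [Fintype V] [CommGroup H] [Finite H] [MulAction H V] (G : SimpleGraph V), N ≤ Fintype.card V →
      EightThree G → (∀ (h : H) (x y : V), G.Adj x y → G.Adj (h • x) (h • y)) → (∀ h : H, h ^ 4 = 1) → ∀ v : V,
      (Fintype.card V : ℝ) ^ (2 / 3 + δ) ≤ (MulAction.orbit H v).ncard → (Fintype.card V : ℝ) ^ (1 / 3 + δ / 3) ≤ G.indepNum) ∧
    (∀ (Γ : Type) [Group Γ] [Fintype Γ] (G : SimpleGraph Γ) (S : Set Γ), (∀ x y, G.Adj x y ↔ x⁻¹ * y ∈ S) →
      (∀ s ∈ S, ∀ g : Γ, g⁻¹ * s * g ∈ S) → (∀ s ∈ S, s ^ 4 = 1) → EightThree G → 17 ≤ Fintype.card Γ →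
      Fintype.card Γ ≤ G.indepNum * (G.indepNum + 1)) := by
  classical
  refine ⟨?_, ?_, ?_⟩
  · intro V H _ _ _ _ G hG hact v ht hO
    exact orbit_bound hG hact v ht hO
  · intro δ hδ
    obtain ⟨N, hN⟩ := size_aux hδ
    refine ⟨max N 83521, ?_⟩
    intro V H _ _ _ _ G hn hG hact h4 v hO
    refine hN _ _ ((le_max_left _ _).trans hn) ?_
    have ht : Tame (H := H) G v := by
      rintro ⟨s, c, hs, hc, hsc⟩
      refine ⟨s, c, ⟨hs, hc, hsc⟩, ?_, by rw [h4, one_smul], by rw [h4, one_smul]⟩
      have := hact s _ _ hc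
      rwa [smul_comm] at this
    have h17 : 17 ≤ (MulAction.orbit H v).ncard := by
      have hn' : ((17 : ℝ) ^ (4 : ℕ)) ≤ Fintype.card V := by
        have : 83521 ≤ Fintype.card V := (le_max_right _ _).trans hn
        calc ((17 : ℝ) ^ (4 : ℕ)) = (83521 : ℕ) := by norm_num
          _ ≤ _ := by exact_mod_cast this
      have h1 : (17 : ℝ) ≤ (Fintype.card V : ℝ) ^ (2 / 3 + δ) := by
        calc (17 : ℝ) = ((17 : ℝ) ^ (4 : ℕ)) ^ (1 / 4 : ℝ) := by
              rw [← Real.rpow_natCast, ← Real.rpow_mul (by norm_num)]; norm_num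
          _ ≤ (Fintype.card V : ℝ) ^ (1 / 4 : ℝ) := Real.rpow_le_rpow (by norm_num) hn' (by norm_num)
          _ ≤ (Fintype.card V : ℝ) ^ (2 / 3 + δ) :=
              Real.rpow_le_rpow_of_exponent_le (le_trans (by norm_num) hn') (by linarith)
      exact_mod_cast h1.trans hO
    have h := orbit_bound hG hact v ht h17
    calc (Fintype.card V : ℝ) ^ (2 / 3 + δ) ≤ (MulAction.orbit H v).ncard := hO
      _ ≤ ((G.indepNum * (G.indepNum + 1) : ℕ) : ℝ) := by exact_mod_cast h
      _ = _ := by push_cast; ring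
  · intro Γ _ _ G S hadj hconj h4 hG h17
    have horb : (MulAction.orbit Γ (1 : Γ)) = Set.univ := MulAction.orbit_eq_univ Γ 1
    have hc : (MulAction.orbit Γ (1 : Γ)).ncard = Fintype.card Γ := by
      rw [horb, Set.ncard_univ, Nat.card_eq_fintype_card]
    rw [← hc] at h17 ⊢
    refine orbit_bound hG ?_ 1 ?_ h17
    · intro h x y hxy
      rw [hadj] at hxy ⊢
      simpa [mul_assoc] using hxy
    · rintro ⟨s, c, hs, hc', hsc⟩
      have hcS : c ∈ S := by simpa [hadj] using hc'
      have c4 := h4 c hcS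
      refine ⟨s, c, ⟨hs, hc', hsc⟩, ?_, by rw [c4, one_smul], by rw [c4, one_smul]⟩
      rw [hadj]
      simpa [mul_assoc] using hconj c hcS s

end Pool.Agent.Results.MP_3ca12c_co.FourTorsionOrbits
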